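import Pool.Agent.LE.StmtsQH
import Pool.Agent.Helper54_LIR.FTB

/-!
# FMU: Fourier multipliers on the torus
-/

set_option autoImplicit false
set_option linter.unusedSectionVars false

open scoped BigOperators

noncomputable section

namespace Pool.Agent.LE.QF.H69

open Pool.Agent.BED Pool.Agent.LE.IR Pool.Agent.LE.IR.H54 Pool.Agent.LE.QF

variable {d M : ℕ} [NeZero M]

theorem sum_even (s : Tor d M → ℝ) (hs : ∀ p, s (-p) = s p) (z : Tor d M) :
    ((∑ p, s p * (ec p z).re : ℝ) : ℂ) = ∑ p, (s p : ℂ) * ec p z := by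
  have h1 : (starRingEnd ℂ) (∑ p, (s p : ℂ) * ec p z) = ∑ p, (s p : ℂ) * ec p z := by
    rw [map_sum]
    rw [← Equiv.sum_comp (Equiv.neg (Tor d M)) (fun p => (s p : ℂ) * ec p z)]
    refine Finset.sum_congr rfl fun p _ => ?_
    rw [map_mul, Complex.conj_ofReal, Equiv.neg_apply, hs, ec_neg_left]
  have h2 := Complex.conj_eq_iff_re.1 h1
  rw [← h2]
  congr 1
  rw [Complex.re_sum]
  exact Finset.sum_congr rfl fun p _ => (Complex.re_ofReal_mul _ _).symm

theorem cast_mlt (s : Tor d M → ℝ) (hs : ∀ p, s (-p) = s p) (x y : Tor d M) :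
    ((mlt s x y : ℝ) : ℂ) = (∑ p, (s p : ℂ) * ec p (x - y)) / (M : ℂ) ^ d := by
  rw [← sum_even s hs]
  unfold mlt
  push_cast
  rfl

theorem MRne : (M : ℝ) ^ d ≠ 0 := pow_ne_zero _ (by exact_mod_cast NeZero.ne M)

theorem sum_ec_re (z : Tor d M) : ∑ p, (ec p z).re = if z = 0 then (M : ℝ) ^ d else 0 := by
  rw [← Complex.re_sum, sum_ec_right]
  split_ifs
  · rw [← Complex.ofReal_natCast, ← Complex.ofReal_pow, Complex.ofReal_re]
  · rfl

theorem part1 (s : Tor d M → ℝ) (hs : ∀ p, s (-p) = s p) (f : Tor d M → ℝ) :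
    qf (mlt s) f = pm fun p => s p * ‖ft (fun x => (f x : ℂ)) p‖ ^ 2 := by
  apply Complex.ofReal_injective
  unfold qf pm Matrix.mulVec dotProduct
  push_cast
  rw [eq_div_iff Mne, Finset.sum_mul]
  have h1 : ∀ p : Tor d M, (((s p : ℝ) : ℂ) * ((‖ft (fun x => (f x : ℂ)) p‖ : ℝ) : ℂ) ^ 2) =
      ∑ a, ∑ b, (f a : ℂ) * ((s p : ℂ) * ec p (a - b)) * (f b : ℂ) := by
    intro p
    have h2 : ((‖ft (fun x => (f x : ℂ)) p‖ : ℝ) : ℂ) ^ 2 =
        (starRingEnd ℂ) (ft (fun x => (f x : ℂ)) p) * ft (fun x => (f x : ℂ)) p := by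
      rw [mul_comm, Complex.mul_conj, Complex.normSq_eq_norm_sq]
      push_cast
      rfl
    rw [h2]
    unfold ft
    rw [map_sum, Finset.sum_mul_sum, Finset.mul_sum]
    refine Finset.sum_congr rfl fun a _ => ?_
    rw [Finset.mul_sum]
    refine Finset.sum_congr rfl fun b _ => ?_
    rw [map_mul, Complex.conj_conj, Complex.conj_ofReal, ec_sub]
    ring
  simp only [h1]
  rw [Finset.sum_comm]
  refine Finset.sum_congr rfl fun a _ => ?_
  rw [Finset.sum_comm, Finset.mul_sum, Finset.sum_mul]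
  refine Finset.sum_congr rfl fun b _ => ?_
  rw [cast_mlt s hs, ← Finset.sum_mul, ← Finset.mul_sum]
  have h3 := div_mul_cancel₀ (∑ p, (s p : ℂ) * ec p (a - b)) (Mne (d := d) (M := M))
  linear_combination (f a : ℂ) * (f b : ℂ) * h3

theorem part2 (s : Tor d M → ℝ) (x y : Tor d M) : mlt s x y = mlt s y x := by
  unfold mlt
  congr 1
  refine Finset.sum_congr rfl fun p _ => ?_
  rw [← neg_sub y x, ec_neg, Complex.conj_re]

theorem part3 (s s' : Tor d M → ℝ) (hs : ∀ p, s (-p) = s p) (hs' : ∀ p, s' (-p) = s' p) :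
    mlt s * mlt s' = mlt (fun p => s p * s' p) := by
  ext x z
  apply Complex.ofReal_injective
  rw [Matrix.mul_apply, cast_mlt _ (fun p => by rw [hs, hs'])]
  push_cast
  have h1 : ∀ y : Tor d M, (mlt s x y : ℂ) * (mlt s' y z : ℂ) =
      (∑ p, ∑ q, (s p : ℂ) * (s' q : ℂ) * (ec p x * (starRingEnd ℂ) (ec q z)) * ec (q - p) y) /
        ((M : ℂ) ^ d * (M : ℂ) ^ d) := by
    intro y
    rw [cast_mlt s hs, cast_mlt s' hs', div_mul_div_comm, Finset.sum_mul_sum]
    congr 1
    refine Finset.sum_congr rfl fun p _ => Finset.sum_congr rfl fun q _ => ?_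
    rw [ec_sub, ec_sub, sub_eq_add_neg, ec_add_left, ec_neg_left]
    ring
  simp only [h1]
  rw [← Finset.sum_div, Finset.sum_comm]
  rw [div_eq_div_iff (mul_ne_zero Mne Mne) Mne, Finset.sum_mul, Finset.sum_mul]
  refine Finset.sum_congr rfl fun p _ => ?_
  rw [Finset.sum_comm]
  have h2 : ∀ q : Tor d M, ∑ y, (s p : ℂ) * (s' q : ℂ) *
      (ec p x * (starRingEnd ℂ) (ec q z)) * ec (q - p) y =
      if q = p then (s p : ℂ) * (s' q : ℂ) * (ec p x * (starRingEnd ℂ) (ec q z)) * (M : ℂ) ^ d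
        else 0 := by
    intro q
    rw [← Finset.mul_sum, sum_ec]
    by_cases h : q = p
    · rw [if_pos h, if_pos (by rw [h, sub_self])]
    · rw [if_neg h, if_neg (sub_ne_zero.2 h), mul_zero]
  simp only [h2]
  rw [Finset.sum_ite_eq' Finset.univ p]
  rw [if_pos (Finset.mem_univ p), ec_sub]
  ring

theorem part4 (s s' : Tor d M → ℝ) : mlt (fun p => s p + s' p) = mlt s + mlt s' := by
  ext x y
  rw [Matrix.add_apply]
  unfold mlt
  rw [← add_div, ← Finset.sum_add_distrib]
  congr 1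
  exact Finset.sum_congr rfl fun p _ => by ring

theorem part5 (s : Tor d M → ℝ) (t : ℝ) : mlt (fun p => t * s p) = t • mlt s := by
  ext x y
  rw [Matrix.smul_apply]
  unfold mlt
  rw [smul_eq_mul, ← mul_div_assoc, Finset.mul_sum]
  congr 1
  exact Finset.sum_congr rfl fun p _ => by ring

theorem part6 : mlt (fun _ : Tor d M => 1) = 1 := by
  ext x y
  unfold mlt
  simp only [one_mul]
  rw [sum_ec_re, Matrix.one_apply]
  by_cases h : x = y
  · rw [if_pos h, if_pos (by rw [h, sub_self]), div_self MRne]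
  · rw [if_neg h, if_neg (sub_ne_zero.2 h), zero_div]

theorem part7 (s : Tor d M → ℝ) (hs : ∀ p, s (-p) = s p) (x : Tor d M) :
    ∑ y, mlt s x y = s 0 := by
  apply Complex.ofReal_injective
  push_cast
  simp only [cast_mlt s hs]
  rw [← Finset.sum_div, div_eq_iff Mne, Finset.sum_comm]
  have h1 : ∀ p : Tor d M, ∑ y, (s p : ℂ) * ec p (x - y) =
      if p = 0 then (s p : ℂ) * (M : ℂ) ^ d else 0 := by
    intro p
    have h2 : ∑ y, ec p (x - y) = ∑ y, ec p y :=
      Equiv.sum_comp (Equiv.subLeft x) (fun y => ec p y)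
    rw [← Finset.mul_sum, h2, sum_ec]
    split_ifs
    · rfl
    · exact mul_zero _
  simp only [h1]
  rw [Finset.sum_ite_eq' Finset.univ (0 : Tor d M), if_pos (Finset.mem_univ _)]

theorem part8 (s : Tor d M → ℝ) (x : Tor d M) : mlt s x x = pm s := by
  unfold mlt pm
  simp [sub_self, ec_zero]

theorem part9 : P0 (Tor d M) = mlt (fun p => if p = 0 then 1 else 0) := by
  ext x y
  unfold P0 mlt
  have h1 : ∀ p : Tor d M, (if p = 0 then (1 : ℝ) else 0) * (ec p (x - y)).re =
      if p = 0 then 1 else 0 := by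
    intro p
    by_cases h : p = 0
    · rw [if_pos h, h, ec_comm, ec_zero, Complex.one_re, mul_one]
    · rw [if_neg h, zero_mul]
  simp only [h1]
  rw [Finset.sum_ite_eq' Finset.univ (0 : Tor d M), if_pos (Finset.mem_univ _), one_div]
  congr 1
  rw [Fintype.card_fun, ZMod.card, Fintype.card_fin]
  push_cast
  rfl

theorem part10 (s : Tor d M → ℝ) (hs : ∀ p, s (-p) = s p) (h0 : ∀ p, 0 < s p) :
    (mlt s)⁻¹ = mlt fun p => (s p)⁻¹ := by
  refine Matrix.inv_eq_right_inv ?_
  rw [part3 s _ hs (fun p => by rw [hs]), ← part6]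
  congr 1
  funext p
  exact mul_inv_cancel₀ (h0 p).ne'

theorem part11 (k : Tor d M → ℝ) (x y : Tor d M) (hk : ∀ z, k (-z) = k z) :
    k (x - y) = mlt (fun p => ∑ z, k z * (ec p z).re) x y := by
  apply Complex.ofReal_injective
  rw [cast_mlt _ (fun p => Finset.sum_congr rfl fun z _ => by
    rw [ec_neg_left, Complex.conj_re])]
  rw [eq_div_iff Mne]
  have h1 : ∀ p : Tor d M, ((∑ z, k z * (ec p z).re : ℝ) : ℂ) * ec p (x - y) =
      ∑ z, (k z : ℂ) * ec p (z + (x - y)) := by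
    intro p
    have h2 : ∀ z : Tor d M, k z * (ec p z).re = k z * (ec z p).re := fun z => by rw [ec_comm]
    simp only [h2]
    rw [sum_even k hk p, Finset.sum_mul]
    refine Finset.sum_congr rfl fun z _ => ?_
    rw [ec_add, ec_comm z p]
    ring
  simp only [h1]
  rw [Finset.sum_comm]
  have h3 : ∀ z : Tor d M, ∑ p, (k z : ℂ) * ec p (z + (x - y)) =
      if z = -(x - y) then (k z : ℂ) * (M : ℂ) ^ d else 0 := by
    intro z
    rw [← Finset.mul_sum, sum_ec_right]
    by_cases h : z = -(x - y)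
    · rw [if_pos h, if_pos (by rw [h, neg_add_cancel])]
    · rw [if_neg h, if_neg (fun h' => h (eq_neg_of_add_eq_zero_left h')), mul_zero]
  simp only [h3]
  rw [Finset.sum_ite_eq' Finset.univ (-(x - y)), if_pos (Finset.mem_univ _), hk]

/-- Row FMU. -/
theorem fmu : FmuStmt := by
  intro d M _ s s' hs hs'
  exact ⟨part1 s hs, part2 s, part3 s s' hs hs', part4 s s', part5 s, part6, part7 s hs, part8 s,
    part9, part10 s hs, fun k x y hk => part11 k x y hk⟩

end Pool.Agent.LE.QF.H69
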